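import Mathlib

set_option autoImplicit false
open Finset

namespace Pool.Agent.H.MP_3d11e1_an

lemma pw {u : ℂ} (hu : ‖u‖ = 1) (n : ℕ) : ‖u ^ n - 1‖ ≤ n * ‖u - 1‖ := by
  induction n with
  | zero => simp
  | succ n ih =>
    rw [show u ^ (n + 1) - 1 = u * (u ^ n - 1) + (u - 1) by ring]
    refine (norm_add_le _ _).trans ?_
    rw [norm_mul, hu]; push_cast; linarith

lemma gs {u : ℂ} (hu : ‖u‖ = 1) (p n : ℕ) :
    ‖∑ j ∈ range n, u ^ (p + j)‖ * ‖u - 1‖ = ‖u ^ n - 1‖ := by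
  simp_rw [pow_add]
  rw [← mul_sum, ← norm_mul, mul_assoc, geom_sum_mul, norm_mul, norm_pow, hu]; simp

lemma act {u : ℂ} {p n : ℕ} {A : ℝ} (h : ∀ j < n, ‖u ^ (p + j) - 1‖ ≤ A) :
    ‖∑ j ∈ range n, u ^ (p + j) - n‖ ≤ n * A := by
  rw [show (n : ℂ) = ∑ j ∈ range n, 1 by simp, ← sum_sub_distrib]
  refine (norm_sum_le _ _).trans ((sum_le_sum fun j hj => h j (mem_range.1 hj)).trans ?_)
  simp

variable {ι : Type*} {Λ : Finset ι} {c u : ι → ℂ} {f : ℕ → ℝ} {η C : ℝ}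

open Classical in
lemma est (hf : ∀ j, |f j - (∑ k ∈ Λ, c k * u k ^ j).re| ≤ η) (hc : ∑ k ∈ Λ, ‖c k‖ ≤ C)
    (P : ι → Prop) (p n : ℕ) {B : ℝ} (hB : 0 ≤ B)
    (h1 : ∀ k ∈ Λ, P k → ‖∑ j ∈ range n, u k ^ (p + j) - n‖ ≤ B)
    (h2 : ∀ k ∈ Λ, ¬ P k → ‖∑ j ∈ range n, u k ^ (p + j)‖ ≤ B) :
    |∑ j ∈ range n, f (p + j) - n * (∑ k ∈ Λ, if P k then c k else 0).re| ≤ n * η + C * B := by
  have e : ∑ j ∈ range n, f (p + j) - n * (∑ k ∈ Λ, if P k then c k else 0).re =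
      ∑ j ∈ range n, (f (p + j) - (∑ k ∈ Λ, c k * u k ^ (p + j)).re) +
      (∑ k ∈ Λ, c k * (∑ j ∈ range n, u k ^ (p + j) - if P k then (n : ℂ) else 0)).re := by
    have : ∑ k ∈ Λ, c k * (∑ j ∈ range n, u k ^ (p + j) - if P k then (n : ℂ) else 0) =
        ∑ j ∈ range n, ∑ k ∈ Λ, c k * u k ^ (p + j) - (n : ℝ) * ∑ k ∈ Λ, if P k then c k else 0 := by
      rw [sum_comm, mul_sum, ← sum_sub_distrib]
      refine sum_congr rfl fun k _ => ?_
      rw [mul_sub, mul_sum]; split_ifs <;> simp [mul_comm]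
    rw [this, Complex.sub_re, Complex.re_ofReal_mul, sum_sub_distrib, Complex.re_sum (range n)]
    ring
  rw [e]
  refine (abs_add_le _ _).trans (add_le_add ((abs_sum_le_sum_abs _ _).trans
    ((sum_le_sum fun j _ => hf _).trans (by simp))) ((Complex.abs_re_le_norm _).trans
    ((norm_sum_le _ _).trans ?_)))
  refine le_trans (sum_le_sum fun k hk => ?_) ((sum_mul ..).symm.trans_le
    (mul_le_mul_of_nonneg_right hc hB))
  rw [norm_mul]
  refine mul_le_mul_of_nonneg_left ?_ (norm_nonneg _)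
  split_ifs with h
  · exact h1 k hk h
  · simpa using h2 k hk h

def Ch (Λ : Finset ι) (a : ι → ℝ) (r : ℝ) (s : ℕ) (τ : ℝ) : Prop :=
  ∃ k : ℕ → ι, (∀ j < s, k j ∈ Λ) ∧ (0 < s → a (k 0) ≤ τ) ∧
    ∀ j, j + 1 < s → a (k (j + 1)) ≤ r * a (k j)

lemma Ch.cons {a : ι → ℝ} {r τ : ℝ} {s : ℕ} {k₀ : ι} (h0 : k₀ ∈ Λ) (h1 : a k₀ ≤ τ)
    (h : Ch Λ a r s (r * a k₀)) : Ch Λ a r (s + 1) τ := by
  obtain ⟨k, a1, a2, a3⟩ := h
  refine ⟨fun j => Nat.casesOn j k₀ k, fun j hj => ?_, fun _ => h1, fun j hj => ?_⟩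
  · cases j with
    | zero => exact h0
    | succ j => exact a1 j (by omega)
  · cases j with
    | zero => exact a2 (by omega)
    | succ j => exact a3 j (by omega)

theorem main [Inhabited ι] (hu : ∀ k ∈ Λ, ‖u k‖ = 1) (hu1 : ∀ k ∈ Λ, 0 < ‖u k - 1‖)
    (hf : ∀ j, |f j - (∑ k ∈ Λ, c k * u k ^ j).re| ≤ η) {r : ℝ} (r8 : r ≤ 1 / 8)
    (hc : ∑ k ∈ Λ, ‖c k‖ ≤ 1 / r) {m₀ : ℕ} (hg : ∀ m, m₀ ≤ m → 0 ≤ ∑ j ∈ range m, f j) {p : ℕ}
    (hD : ∀ ρ : ℝ, 0 < ρ → ρ ≤ r → ∀ N : ℕ, ∃ l : ℕ, 1 ≤ l ∧ l * ρ ^ p ≤ 1 ∧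
      ∀ k ∈ Λ, ‖u k ^ (l * N) - 1‖ ≤ ρ) (s : ℕ) :
    ∀ (ε τ : ℝ) (T : ℕ), 0 < ε → ε ≤ r → η ≤ ε ^ (8 * p + 11) ^ s → 1 ≤ T → m₀ ≤ T →
      (∀ m, T ≤ m → (∀ k ∈ Λ, ‖u k ^ m - 1‖ ≤ ε) → ε * T ≤ ∑ j ∈ range m, f j) →
      (∀ k ∈ Λ, τ < ‖u k - 1‖ → ε ≤ ‖u k - 1‖ * T) → Ch Λ (fun k => ‖u k - 1‖) r s τ := by
  classical
  induction s with
  | zero => exact fun _ _ _ _ _ _ _ _ _ _ => ⟨fun _ => default, by simp, by simp, by simp⟩
  | succ s ih =>
  intro ε τ T e0 er hη T1 Tm inv dead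
  have e8 : ε ≤ 1 / 8 := er.trans r8
  have e1 : ε ≤ 1 := by linarith
  have pl : ∀ {a b : ℕ}, a ≤ b → ε ^ b ≤ ε ^ a := fun h => pow_le_pow_of_le_one e0.le e1 h
  have T0 : (0 : ℝ) < T := by exact_mod_cast T1
  have hc' : ∑ k ∈ Λ, ‖c k‖ ≤ 1 / ε := hc.trans (one_div_le_one_div_of_le e0 er)
  have hA : η ≤ ε ^ (8 * p + 11) := hη.trans (pl (Nat.le_self_pow (by omega) _))
  have eA : ε ^ (8 * p + 11) ≤ ε := by simpa using pl (a := 1) (by omega)
  have IH := fun τ T => ih (ε ^ (8 * p + 11)) τ T (by positivity) (eA.trans er)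
    (by rwa [← pow_mul, ← pow_succ'])
  set w := (∑ k ∈ Λ, if ‖u k - 1‖ ≤ τ then c k else 0).re with hw
  have B1 : (∀ k ∈ Λ, ‖u k - 1‖ ≤ τ → ‖u k - 1‖ * T ≤ ε ^ (8 * p + 10)) → ε ^ (4 * p + 2) ≤ w := by
    intro h
    obtain ⟨l, l1, l2, l3⟩ := hD (ε ^ 4) (by positivity)
      ((by simpa using pl (a := 1) (b := 4) (by omega) : ε ^ 4 ≤ ε).trans er) T
    rw [← pow_mul] at l2
    have l0 : (0 : ℝ) < l := by exact_mod_cast l1
    have i1 := inv (l * T) (Nat.le_mul_of_pos_left _ l1) fun k hk =>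
      (l3 k hk).trans (by simpa using pl (a := 1) (b := 4) (by omega))
    have i2 := est hf hc' (fun k => ‖u k - 1‖ ≤ τ) 0 (l * T) (B := ε ^ 3 * T) (by positivity)
      (fun k hk hP => (act (A := (l * T : ℕ) * ‖u k - 1‖) fun j hj => by
        rw [zero_add]
        exact (pw (hu k hk) j).trans (by gcongr)).trans (by
          push_cast
          calc (l : ℝ) * T * (l * T * ‖u k - 1‖) = l * l * T * (‖u k - 1‖ * T) := by ring
            _ ≤ l * l * T * ε ^ (8 * p + 10) := by gcongr; exact h k hk hP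
            _ = (l * ε ^ (4 * p)) * (l * ε ^ (4 * p)) * (ε ^ 10 * T) := by ring
            _ ≤ 1 * 1 * (ε ^ 3 * T) := by gcongr ?_ * ?_ * (?_ * T); exact pl (by omega)
            _ = _ := by ring))
      (fun k hk hP => by
        have a1 := gs (hu k hk) 0 (l * T)
        have a2 := dead k hk (not_le.1 hP)
        have a3 := l3 k hk
        refine le_of_mul_le_mul_right ?_ e0
        calc _ ≤ ‖∑ j ∈ range (l * T), u k ^ (0 + j)‖ * (‖u k - 1‖ * T) := by gcongr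
          _ = ‖u k ^ (l * T) - 1‖ * T := by rw [← a1]; ring
          _ ≤ ε ^ 4 * T := by gcongr
          _ = _ := by ring)
    simp only [zero_add] at i2
    have i3 := (abs_le.1 i2).2
    have i4 : ((l * T : ℕ) : ℝ) * η ≤ ε ^ 2 * T := by
      push_cast
      calc (l : ℝ) * T * η ≤ l * T * ε ^ (4 * p + 2) := by gcongr; exact hA.trans (pl (by omega))
        _ = (l * ε ^ (4 * p)) * (ε ^ 2 * T) := by ring
        _ ≤ 1 * (ε ^ 2 * T) := by gcongr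
        _ = _ := by ring
    have i5 : 1 / ε * (ε ^ 3 * T) = ε ^ 2 * T := by field_simp
    have i6 : ε ^ 2 ≤ l * w := by
      refine le_of_mul_le_mul_right ?_ T0
      push_cast at i3 i4
      nlinarith [mul_pos e0 T0]
    have w0 : 0 ≤ w := by by_contra hh; nlinarith [pow_pos e0 2]
    calc ε ^ (4 * p + 2) = ε ^ (4 * p) * ε ^ 2 := by ring
      _ ≤ ε ^ (4 * p) * (l * w) := by gcongr
      _ = (l * ε ^ (4 * p)) * w := by ring
      _ ≤ 1 * w := by gcongr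
      _ = w := one_mul _
  have ne : (Λ.filter fun k => ‖u k - 1‖ ≤ τ).Nonempty := by
    by_contra hh
    have h' : ∀ k ∈ Λ, ¬ ‖u k - 1‖ ≤ τ := fun k hk h => hh ⟨k, mem_filter.2 ⟨hk, h⟩⟩
    have := B1 fun k hk h => absurd h (h' k hk)
    rw [hw, sum_eq_zero fun k hk => if_neg (h' k hk)] at this
    exact absurd this (by simpa using pow_pos e0 _)
  obtain ⟨k₀, hk₀, hmax⟩ := exists_max_image _ (fun k => ‖u k - 1‖) ne
  obtain ⟨k1, k2⟩ := mem_filter.1 hk₀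
  have hm : ∀ k ∈ Λ, ‖u k - 1‖ ≤ τ → ‖u k - 1‖ ≤ ‖u k₀ - 1‖ := fun k hk h =>
    hmax k (mem_filter.2 ⟨hk, h⟩)
  have μ0 := hu1 k₀ k1
  refine Ch.cons k1 k2 ?_
  generalize ‖u k₀ - 1‖ = μ at *
  rcases le_total (ε ^ (8 * p + 10)) (μ * T) with hB | hB
  · refine IH _ T T1 Tm (fun m h1 h2 => le_trans (by gcongr) (inv m h1 fun k hk =>
      (h2 k hk).trans eA)) fun k hk h => ?_
    calc ε ^ (8 * p + 11) = ε * ε ^ (8 * p + 10) := by ring
      _ ≤ r * (μ * T) := by gcongr; linarith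
      _ = r * μ * T := by ring
      _ ≤ _ := by gcongr
  have hσ := B1 fun k hk h => le_trans (by gcongr; exact hm k hk h) hB
  set σ := ε ^ (4 * p + 2) with hσ'
  have σ0 : 0 < σ := by positivity
  have x1 : T ≤ σ * ε ^ 2 / μ * (σ * ε ^ 4) := by
    rw [div_mul_eq_mul_div, le_div_iff₀ μ0]
    calc T * μ = μ * T := mul_comm _ _
      _ ≤ _ := hB
      _ = _ := by rw [hσ']; ring
  have σ1 : σ ≤ 1 := pow_le_one₀ e0.le e1
  have σ2 : σ * ε ^ 4 ≤ 1 / 2 := by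
    have : ε ^ 4 ≤ ε := by simpa using pl (a := 1) (b := 4) (by omega)
    nlinarith [pow_pos e0 4]
  have T1' : (1 : ℝ) ≤ T := by exact_mod_cast T1
  have x0 : 0 < σ * ε ^ 2 / μ := by positivity
  have x2 : 1 ≤ σ * ε ^ 2 / μ := by nlinarith
  set n := ⌊σ * ε ^ 2 / μ⌋₊ with hn
  have n1 : (n : ℝ) ≤ σ * ε ^ 2 / μ := Nat.floor_le x0.le
  have n2 : σ * ε ^ 2 / μ ≤ 2 * n := by
    have := Nat.lt_floor_add_one (σ * ε ^ 2 / μ)
    have h1 : (1 : ℝ) ≤ n := by exact_mod_cast (Nat.one_le_floor_iff _).2 x2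
    linarith
  have n3 : T ≤ 2 * n * (σ * ε ^ 4) := x1.trans (by gcongr)
  have n0 : (0 : ℝ) ≤ n := Nat.cast_nonneg n
  have n4 : T ≤ n := by exact_mod_cast (by nlinarith : (T : ℝ) ≤ n)
  rw [le_div_iff₀ μ0] at n1
  rw [div_le_iff₀ μ0] at n2
  clear_value n
  have eσ : ε ^ (8 * p + 11) ≤ σ * ε ^ 3 := by rw [hσ', ← pow_add]; exact pl (by omega)
  have e32 : σ * ε ^ 3 ≤ σ * ε ^ 2 := by gcongr σ * ?_; exact pl (by omega)
  refine IH _ (2 * n) (by omega) (by omega) (fun m h1 h2 => ?_) fun k hk h => ?_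
  · obtain ⟨b, rfl⟩ : ∃ b, m = b + n := ⟨m - n, by omega⟩
    have i2 := est hf hc' (fun k => ‖u k - 1‖ ≤ τ) b n (B := n * (2 * (σ * ε ^ 2))) (by positivity)
      (fun k hk hP => act fun j hj => by
        have a1 := pw (hu k hk) (n - j)
        have a2 : ((n - j : ℕ) : ℝ) * ‖u k - 1‖ ≤ n * μ := by
          gcongr
          · omega
          · exact hm k hk hP
        rw [show u k ^ (b + j) - 1 = (u k ^ (b + n) - 1) - u k ^ (b + j) * (u k ^ (n - j) - 1) by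
          rw [mul_sub, ← pow_add, show b + j + (n - j) = b + n by omega]; ring]
        refine (norm_sub_le _ _).trans ?_
        rw [norm_mul, norm_pow, hu k hk, one_pow, one_mul]
        linarith [h2 k hk])
      (fun k hk hP => by
        have a1 := gs (hu k hk) b n
        have a2 := dead k hk (not_le.1 hP)
        have a3 : ‖u k ^ n - 1‖ ≤ 2 := (norm_sub_le _ _).trans (by
          rw [norm_pow, hu k hk]; norm_num)
        refine le_of_mul_le_mul_right ?_ e0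
        calc _ ≤ ‖∑ j ∈ range n, u k ^ (b + j)‖ * (‖u k - 1‖ * T) := by gcongr
          _ = ‖u k ^ n - 1‖ * T := by rw [← a1]; ring
          _ ≤ 2 * (2 * n * (σ * ε ^ 4)) := by gcongr
          _ = n * (2 * (σ * ε ^ 2)) * ε * (2 * ε) := by ring
          _ ≤ n * (2 * (σ * ε ^ 2)) * ε * 1 := by gcongr; linarith
          _ = _ := mul_one _)
    have i3 := (abs_le.1 i2).1
    have i5 : 1 / ε * (n * (2 * (σ * ε ^ 2))) = 2 * (n * σ * ε) := by field_simp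
    have i4 : n * η ≤ n * σ * ε := by
      rw [mul_assoc]; gcongr
      exact hA.trans (eσ.trans (by gcongr; simpa using pl (a := 1) (b := 3) (by omega)))
    have i6 : n * σ ≤ n * w := by gcongr
    have i7 : n * σ * ε ≤ n * σ * (1 / 8) := by gcongr
    have i8 : ε ^ (8 * p + 11) * n ≤ n * σ * ε := by
      rw [mul_comm, mul_assoc]; gcongr
      exact eσ.trans (by gcongr; simpa using pl (a := 1) (b := 3) (by omega))
    have := hg b (by omega)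
    rw [sum_range_add]
    push_cast
    linarith [mul_nonneg n0 σ0.le]
  · push_cast
    calc ε ^ (8 * p + 11) ≤ ε * (σ * ε ^ 2) := eσ.trans_eq (by ring)
      _ ≤ r * (2 * n * μ) := by gcongr; linarith
      _ = r * μ * (2 * n) := by ring
      _ ≤ _ := by gcongr

lemma low {u : ℂ} (hu : ‖u‖ = 1) {t : ℤ} (ht : t ≠ 0) (h : |(t : ℝ)| * ‖u - 1‖ ≤ 1 / 2) :
    ‖u - 1‖ / 2 ≤ ‖u ^ t - 1‖ := by
  have key : ∀ n : ℕ, 1 ≤ n → n * ‖u - 1‖ ≤ 1 / 2 → ‖u - 1‖ / 2 ≤ ‖u ^ n - 1‖ := fun n n1 hn => by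
    have a1 := gs hu 0 n
    have a2 := act (u := u) (p := 0) (n := n) (A := 1 / 2) fun j hj => by
      rw [zero_add]; exact (pw hu j).trans (le_trans (by gcongr) hn)
    have a3 := norm_sub_norm_le (n : ℂ) (∑ j ∈ range n, u ^ (0 + j))
    rw [norm_sub_rev, Complex.norm_natCast] at a3
    have : (1 : ℝ) ≤ n := by exact_mod_cast n1
    rw [← a1]
    nlinarith [norm_nonneg (u - 1)]
  have u0 : u ≠ 0 := norm_pos_iff.1 (by rw [hu]; exact one_pos)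
  obtain ⟨n, rfl | rfl⟩ := t.eq_nat_or_neg
  · simpa using key n (by omega) (by simpa using h)
  · rw [show u ^ (-(n : ℤ)) - 1 = -(u ^ n)⁻¹ * (u ^ n - 1) by
      rw [zpow_neg, zpow_natCast]; field_simp; ring, norm_mul, norm_neg, norm_inv, norm_pow, hu]
    simpa using key n (by omega) (by simpa using h)

lemma up {u : ℂ} (hu : ‖u‖ = 1) (t : ℤ) : ‖u ^ t - 1‖ ≤ |(t : ℝ)| * ‖u - 1‖ := by
  have u0 : u ≠ 0 := norm_pos_iff.1 (by rw [hu]; exact one_pos)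
  obtain ⟨n, rfl | rfl⟩ := t.eq_nat_or_neg
  · simpa using pw hu n
  · rw [show u ^ (-(n : ℤ)) - 1 = -(u ^ n)⁻¹ * (u ^ n - 1) by
      rw [zpow_neg, zpow_natCast]; field_simp; ring, norm_mul, norm_neg, norm_inv, norm_pow, hu]
    simpa using pw hu n

lemma prd {κ : Type*} (s : Finset κ) {v : κ → ℂ} (hv : ∀ i, ‖v i‖ = 1) :
    ‖∏ i ∈ s, v i - 1‖ ≤ ∑ i ∈ s, ‖v i - 1‖ := by
  classical
  induction s using Finset.induction_on with
  | empty => simp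
  | insert a s ha ih =>
    rw [prod_insert ha, sum_insert ha, show v a * ∏ i ∈ s, v i - 1 =
      (v a - 1) + v a * (∏ i ∈ s, v i - 1) by ring]
    refine (norm_add_le _ _).trans ?_
    rw [norm_mul, hv]; linarith

end Pool.Agent.H.MP_3d11e1_an
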