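import Pool.Agent.H.MP_3d11e1_an.B

set_option autoImplicit false
open Finset UnitAddTorus MeasureTheory Complex Real

namespace Pool.Agent.H.MP_3d11e1_an

variable {d : ℕ}

lemma circ (z : UnitAddCircle) : ‖(AddCircle.toCircle z : ℂ) - 1‖ ≤ 2 * π * ‖z‖ := by
  induction z using QuotientAddGroup.induction_on with
  | H x =>
  have e : ((x : ℝ) : UnitAddCircle) = ((x - round x : ℝ) : UnitAddCircle) := by
    rw [AddCircle.coe_sub, (AddCircle.coe_eq_zero_iff (1 : ℝ) (x := round x)).2 ⟨round x, by simp⟩,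
      sub_zero]
  rw [UnitAddCircle.norm_eq, e, AddCircle.toCircle_apply_mk, Circle.coe_exp, mul_comm _ I]
  refine Real.norm_exp_I_mul_ofReal_sub_one_le.trans_eq ?_
  rw [Real.norm_eq_abs, abs_mul, abs_of_pos (by positivity), div_one]

lemma mf_lip {F : ℕ} {k : Fin d → ℤ} (hk : k ∈ box d F) (y : UnitAddTorus (Fin d)) :
    ‖mFourier k y - 1‖ ≤ d * (F * (2 * π * ‖y‖)) := by
  simp only [mFourier, ContinuousMap.coe_mk, fourier_apply, AddCircle.toCircle_zsmul,
    Circle.coe_zpow]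
  refine (prd _ fun i => by simp).trans ((sum_le_card_nsmul _ _ (F * (2 * π * ‖y‖))
    fun i _ => (up (by simp) _).trans ?_).trans_eq (by simp))
  gcongr
  · exact_mod_cast mem_box.1 hk i
  · exact (circ _).trans (by gcongr; exact norm_le_pi_norm y i)

lemma mf_nsmul (k : Fin d → ℤ) (y : UnitAddTorus (Fin d)) (n : ℕ) :
    mFourier k (n • y) = mFourier k y ^ n := by
  induction n with
  | zero => simp [mFourier]
  | succ n ih => rw [succ_nsmul, mf_add, ih, pow_succ]

lemma dirichlet (y : UnitAddTorus (Fin d)) {δ : ℝ} (h0 : 0 < δ) (h1 : δ ≤ 1) :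
    ∃ l : ℕ, 1 ≤ l ∧ l * δ ^ d ≤ 1 ∧ ‖l • y‖ ≤ δ := by
  have p0 : 0 < δ ^ d := by positivity
  have p1 : 1 ≤ 1 / δ ^ d := by rw [le_div_iff₀ p0, one_mul]; exact pow_le_one₀ h0.le h1
  obtain ⟨l, ⟨l1, l2⟩, l3⟩ := NormedAddCommGroup.exists_norm_nsmul_le (μ := volume) y
    (n := ⌊1 / δ ^ d⌋₊) (Nat.floor_pos.2 p1) δ (by
      rw [MeasureTheory.volume_pi_closedBall _ (by positivity), ← Set.pi_univ, volume_pi_pi]
      simp only [AddCircle.volume_closedBall, AddCircle.measure_univ, ENNReal.ofReal_one,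
        prod_const_one, prod_const, card_univ, Fintype.card_fin]
      rw [mul_div_cancel₀ _ two_ne_zero, min_eq_right h1, ← ENNReal.ofReal_pow h0.le,
        ← ENNReal.ofReal_nsmul, ENNReal.one_le_ofReal, nsmul_eq_mul, ← div_le_iff₀ p0]
      exact_mod_cast (Nat.lt_floor_add_one _).le)
  exact ⟨l, l1, (le_div_iff₀ p0).1 ((Nat.le_floor_iff (by positivity)).1 l2), l3⟩

attribute [local instance] Matrix.seminormedAddCommGroup in
lemma siegel (hd : 0 < d) {F : ℕ} (k : Fin (d + 1) → Fin d → ℤ) (hk : ∀ j, k j ∈ box d F) :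
    ∃ t : Fin (d + 1) → ℤ, t ≠ 0 ∧ ∑ j, t j • k j = 0 ∧
      ∀ j, |(t j : ℝ)| ≤ ((d + 1) * (F + 1)) ^ d := by
  obtain ⟨t, t0, t1, t2⟩ := Int.Matrix.exists_ne_zero_int_vec_norm_le
    (Matrix.of fun i j => k j i) (by simp) (by simpa using hd)
  refine ⟨t, t0, funext fun i => ?_, fun j => ?_⟩
  · simpa [Matrix.mulVec, dotProduct, mul_comm] using congrFun t1 i
  · simp only [Fintype.card_fin, Nat.cast_add, Nat.cast_one, add_sub_cancel_left, div_one,
      Real.rpow_natCast] at t2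
    refine le_trans (by simpa [Int.norm_eq_abs] using norm_le_pi_norm t j) (t2.trans ?_)
    gcongr
    refine max_le (by simp) ((Matrix.norm_le_iff (by positivity)).2 fun i j => ?_)
    rw [Matrix.of_apply, Int.norm_eq_abs]
    exact le_trans (by exact_mod_cast mem_box.1 (hk j) i) (le_add_of_nonneg_right zero_le_one)

lemma mf_sum (y : UnitAddTorus (Fin d)) {κ : Type*} (s : Finset κ) (t : κ → ℤ)
    (k : κ → Fin d → ℤ) : mFourier (∑ j ∈ s, t j • k j) y = ∏ j ∈ s, mFourier (k j) y ^ t j := by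
  classical
  induction s using Finset.induction_on with
  | empty => simp [mFourier_zero]
  | insert a s ha ih =>
    rw [sum_insert ha, prod_insert ha, mFourier_add, ih]
    simp only [mFourier, ContinuousMap.coe_mk, fourier_apply, AddCircle.toCircle_zsmul,
      Circle.coe_zpow, ← prod_zpow, Pi.smul_apply, smul_eq_mul, mul_comm (t a), zpow_mul]

lemma chain (hd : 0 < d) {F : ℕ} {r : ℝ} {y : UnitAddTorus (Fin d)} {Λ : Finset (Fin d → ℤ)}
    (hΛ : Λ ⊆ box d F) (h0 : ∀ k ∈ Λ, 0 < ‖mFourier k y - 1‖) (r0 : 0 ≤ r) (r1 : r ≤ 1)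
    (hr : (d + 1) * (((d + 1) * (F + 1)) ^ d * r) < 1 / 2) :
    ¬ Ch Λ (fun k => ‖mFourier k y - 1‖) r (d + 1) r := by
  rintro ⟨k, k1, k2, k3⟩
  obtain ⟨t, t0, t1, t2⟩ := siegel hd (fun j => k j) fun j => hΛ (k1 j j.2)
  set V : ℝ := ((d + 1) * (F + 1)) ^ d
  have V0 : 0 ≤ V := by positivity
  set a : ℕ → ℝ := fun j => ‖mFourier (k j) y - 1‖ with ha
  have m1 : ∀ i j, i + j < d + 1 → a (i + j) ≤ a i := fun i j => by
    induction j with
    | zero => simp
    | succ j ih =>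
      exact fun h => (k3 _ h).trans ((mul_le_of_le_one_left (norm_nonneg _) r1).trans (ih (by omega)))
  have m2 : ∀ i j, i < j → j < d + 1 → a j ≤ r * a i := fun i j h1 h2 => by
    obtain ⟨l, rfl⟩ : ∃ l, j = i + 1 + l := ⟨j - i - 1, by omega⟩
    exact (m1 _ _ h2).trans (k3 i (by omega))
  obtain ⟨j, hj, hm⟩ := exists_min_image (univ.filter fun j => t j ≠ 0) id
    (by obtain ⟨j, hj⟩ := Function.ne_iff.1 t0; exact ⟨j, by simpa using hj⟩)
  simp only [mem_filter, mem_univ, true_and, id] at hj hm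
  have aj : 0 < a j := h0 _ (k1 j j.2)
  have ar : a j ≤ r := by simpa using (m1 0 j (by simpa using j.2)).trans (k2 (by omega))
  have d0 : (0 : ℝ) ≤ d := Nat.cast_nonneg d
  have Vr : 0 ≤ V * r := by positivity
  have l1 := low (mf_norm (k j) y) hj ((mul_le_mul (t2 j) ar aj.le V0).trans (by nlinarith))
  have e := mf_sum y univ t fun j => k j
  rw [t1, mFourier_zero, ← mul_prod_erase _ _ (mem_univ j)] at e
  have l2 := (prd (univ.erase j) (v := fun i : Fin (d + 1) => mFourier (k i) y ^ t i)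
    fun i => by rw [norm_zpow, mf_norm, one_zpow]).trans (sum_le_card_nsmul _ _ (V * r * a j)
      fun i hi => by
        by_cases h : t i = 0
        · rw [h, zpow_zero, sub_self, norm_zero]; positivity
        · refine (up (mf_norm _ _) _).trans ?_
          rw [mul_assoc]
          exact mul_le_mul (t2 i) (m2 j i (Fin.lt_def.1 (lt_of_le_of_ne (hm i h) (mem_erase.1 hi).1.symm)) i.2)
            (norm_nonneg _) V0)
  have l3 : ‖mFourier (k j) y ^ t j - 1‖ =
      ‖∏ i ∈ univ.erase j, mFourier (k i) y ^ t i - 1‖ := by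
    rw [show mFourier (k j) y ^ t j - 1 = -mFourier (k j) y ^ t j *
      (∏ i ∈ univ.erase j, mFourier (k i) y ^ t i - 1) by
        rw [mul_sub, neg_mul, ← e]; simp; ring, norm_mul, norm_neg, norm_zpow, mf_norm]
    simp
  rw [← l3] at l2
  simp only [card_erase_of_mem (mem_univ j), card_univ, Fintype.card_fin, Nat.add_sub_cancel,
    nsmul_eq_mul] at l2
  have : a j / 2 ≤ d * (V * r * a j) := l1.trans l2
  nlinarith

end Pool.Agent.H.MP_3d11e1_an
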